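import Pool.Agent.H12.HS.Targets

/-!
# Module CONV: a commuting pair with a cyclic vector is a cyclic algebra
-/

namespace Pool.Agent.H48.HZ.CONV

open Pool.Agent.H12.HS Matrix

universe u

theorem conv : T_CONV.{u} := by
  intro R _ d X Y v hXY hcyc
  classical
  let S : Subalgebra R (Matrix (Fin d) (Fin d) R) := Algebra.adjoin R {X, Y}
  have hcomm : ∀ a ∈ ({X, Y} : Set (Matrix (Fin d) (Fin d) R)),
      ∀ b ∈ ({X, Y} : Set (Matrix (Fin d) (Fin d) R)), a * b = b * a := by
    intro a ha b hb
    simp only [Set.mem_insert_iff, Set.mem_singleton_iff] at ha hb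
    rcases ha with rfl | rfl <;> rcases hb with rfl | rfl <;> first | rfl | exact hXY | exact hXY.symm
  have hmc : ∀ a b : S, a * b = b * a := by
    have := Algebra.isMulCommutative_adjoin R hcomm
    intro a b
    exact this.is_comm.comm a b
  let _ : CommRing S := { (inferInstance : Ring S) with mul_comm := hmc }
  let _ : Algebra R S := Subalgebra.algebra S
  let f : S →ₗ[R] (Fin d → R) :=
    { toFun := fun M => (M : Matrix (Fin d) (Fin d) R) *ᵥ v
      map_add' := fun M N => by
        change ((M : Matrix (Fin d) (Fin d) R) + (N : Matrix (Fin d) (Fin d) R)) *ᵥ v = _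
        rw [Matrix.add_mulVec]
      map_smul' := fun r M => by
        change (r • (M : Matrix (Fin d) (Fin d) R)) *ᵥ v = _
        rw [Matrix.smul_mulVec]; rfl }
  have hsurj : Function.Surjective f := by
    intro w
    obtain ⟨M, hM, hw⟩ := hcyc w
    exact ⟨⟨M, hM⟩, hw.symm⟩
  have hinj : Function.Injective f := by
    rw [injective_iff_map_eq_zero]
    intro M hM
    have hM' : (M : Matrix (Fin d) (Fin d) R) *ᵥ v = 0 := hM
    apply Subtype.ext
    have h0 : ∀ w : Fin d → R, (M : Matrix (Fin d) (Fin d) R) *ᵥ w = 0 := by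
      intro w
      obtain ⟨N, hw⟩ := hsurj w
      have hw' : w = (N : Matrix (Fin d) (Fin d) R) *ᵥ v := hw.symm
      have hc : (M : Matrix (Fin d) (Fin d) R) * (N : Matrix (Fin d) (Fin d) R)
          = (N : Matrix (Fin d) (Fin d) R) * (M : Matrix (Fin d) (Fin d) R) :=
        congrArg Subtype.val (hmc M N)
      rw [hw', Matrix.mulVec_mulVec, hc, ← Matrix.mulVec_mulVec, hM', Matrix.mulVec_zero]
    change (M : Matrix (Fin d) (Fin d) R) = 0
    ext i j
    have := congrFun (h0 (Pi.single j 1)) i
    simpa using this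
  let e : S ≃ₗ[R] (Fin d → R) := LinearEquiv.ofBijective f ⟨hinj, hsurj⟩
  have he : ∀ M : S, e M = (M : Matrix (Fin d) (Fin d) R) *ᵥ v := fun M => rfl
  let b : Module.Basis (Fin d) R S := Module.Basis.ofEquivFun e
  have hrepr : ∀ M : S, ⇑(b.repr M) = (M : Matrix (Fin d) (Fin d) R) *ᵥ v := by
    intro M
    ext i
    simp [b, he]
  have hb : ∀ j, (b j : Matrix (Fin d) (Fin d) R) *ᵥ v = Pi.single j 1 := by
    intro j
    rw [← hrepr, Module.Basis.repr_self, Finsupp.single_eq_pi_single]
  have hlm : ∀ p : S, Algebra.leftMulMatrix b p = (p : Matrix (Fin d) (Fin d) R) := by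
    intro p
    ext i j
    rw [Algebra.leftMulMatrix_eq_repr_mul, hrepr]
    change (((p : Matrix (Fin d) (Fin d) R) * (b j : Matrix (Fin d) (Fin d) R)) *ᵥ v) i = _
    rw [← Matrix.mulVec_mulVec, hb]
    simp
  refine ⟨S, inferInstance, inferInstance, b, ⟨X, Algebra.subset_adjoin (by simp)⟩,
    ⟨Y, Algebra.subset_adjoin (by simp)⟩, ?_, ?_, ?_, ?_⟩
  · rw [hlm]
  · rw [hlm]
  · rw [hrepr]
    change (1 : Matrix (Fin d) (Fin d) R) *ᵥ v = v
    rw [Matrix.one_mulVec]
  · have hX : X ∈ S := Algebra.subset_adjoin (by simp)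
    have hY : Y ∈ S := Algebra.subset_adjoin (by simp)
    rw [eq_top_iff]
    rintro ⟨M, hM⟩ -
    induction hM using Algebra.adjoin_induction with
    | mem x hx =>
      apply Algebra.subset_adjoin
      simp only [Set.mem_insert_iff, Set.mem_singleton_iff] at hx
      rcases hx with rfl | rfl
      · left; rfl
      · right; rfl
    | algebraMap r =>
      exact Subalgebra.algebraMap_mem _ r
    | add x y hx hy h1 h2 =>
      exact Subalgebra.add_mem _ h1 h2
    | mul x y hx hy h1 h2 =>
      exact Subalgebra.mul_mem _ h1 h2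

end Pool.Agent.H48.HZ.CONV
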