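import Pool.Agent.H12.HS.Targets

/-!
# Module EXT: polynomials over `Ω` vanishing on a set of `k`-points
-/

namespace Pool.Agent.H48.HZ.EXT

open Pool.Agent.H12.HS

universe u

theorem ext : T_EXT.{u} := by
  intro k Ω _ _ κ σ E c hF G hG
  classical
  let _ : Algebra k Ω := κ.toAlgebra
  have halg : ∀ a : k, algebraMap k Ω a = κ a := fun a => rfl
  let B := Module.Basis.ofVectorSpace k Ω
  let Gj : Module.Basis.ofVectorSpaceIndex k Ω → MvPolynomial σ k := fun j =>
    ∑ m ∈ G.support, MvPolynomial.monomial m (B.repr (MvPolynomial.coeff m G) j)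
  have hGj : ∀ j, ∀ e ∈ E, MvPolynomial.eval e (Gj j) = 0 := by
    intro j e he
    have h1 := hG e he
    rw [MvPolynomial.eval_eq] at h1
    have h2 : ∑ m ∈ G.support, (∏ i ∈ m.support, e i ^ m i) • MvPolynomial.coeff m G
        = (0 : Ω) := by
      rw [← h1]
      refine Finset.sum_congr rfl fun m _ => ?_
      rw [Algebra.smul_def, halg, map_prod, mul_comm]
      congr 1
      refine Finset.prod_congr rfl fun i _ => ?_
      simp
    have h3 := congrArg (fun x => B.repr x j) h2
    simp only [map_sum, map_smul, Finsupp.coe_finsetSum, Finset.sum_apply, Finsupp.smul_apply,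
      map_zero, Finsupp.coe_zero, Pi.zero_apply, smul_eq_mul] at h3
    simp only [Gj, map_sum, MvPolynomial.eval_monomial]
    rw [← h3]
    refine Finset.sum_congr rfl fun m _ => ?_
    rw [mul_comm]; rfl
  have hc : ∀ j, ∑ m ∈ G.support,
      (∏ i ∈ m.support, c i ^ m i) * κ (B.repr (MvPolynomial.coeff m G) j) = 0 := by
    intro j
    have h := hF (Gj j) (hGj j)
    simp only [Gj, MvPolynomial.eval₂_sum, MvPolynomial.eval₂_monomial] at h
    rw [← h]
    refine Finset.sum_congr rfl fun m _ => ?_
    rw [mul_comm]; rfl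
  rw [MvPolynomial.eval_eq]
  let J : Finset (Module.Basis.ofVectorSpaceIndex k Ω) :=
    G.support.biUnion fun m => (B.repr (MvPolynomial.coeff m G)).support
  have hexp : ∀ m ∈ G.support, MvPolynomial.coeff m G
      = ∑ j ∈ J, κ (B.repr (MvPolynomial.coeff m G) j) * B j := by
    intro m hm
    have h := B.linearCombination_repr (MvPolynomial.coeff m G)
    rw [Finsupp.linearCombination_apply, Finsupp.sum] at h
    conv_lhs => rw [← h]
    have hsub : (B.repr (MvPolynomial.coeff m G)).support ⊆ J :=
      Finset.subset_biUnion_of_mem (fun m => (B.repr (MvPolynomial.coeff m G)).support) hm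
    rw [Finset.sum_subset hsub]
    · refine Finset.sum_congr rfl fun j _ => ?_
      rw [Algebra.smul_def, halg]
    · intro j _ hj
      rw [Finsupp.notMem_support_iff.mp hj, zero_smul]
  calc ∑ d ∈ G.support, MvPolynomial.coeff d G * ∏ i ∈ d.support, c i ^ d i
      = ∑ d ∈ G.support, ∑ j ∈ J, B j * ((∏ i ∈ d.support, c i ^ d i) *
          κ (B.repr (MvPolynomial.coeff d G) j)) := by
        refine Finset.sum_congr rfl fun m hm => ?_
        conv_lhs => rw [hexp m hm]
        rw [Finset.sum_mul]
        refine Finset.sum_congr rfl fun j _ => ?_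
        ring
    _ = ∑ j ∈ J, ∑ d ∈ G.support, B j * ((∏ i ∈ d.support, c i ^ d i) *
          κ (B.repr (MvPolynomial.coeff d G) j)) := Finset.sum_comm
    _ = 0 := by
        refine Finset.sum_eq_zero fun j _ => ?_
        rw [← Finset.mul_sum, hc j, mul_zero]

end Pool.Agent.H48.HZ.EXT
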