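import Pool.Agent.H12.HS.Targets

/-!
# Module RED: configurations of distinct `Ω`-points are smoothable (Nullstellensatz trick)
-/

namespace Pool.Agent.H48.HZ.RED

open Pool.Agent.H12.HS Matrix

universe u

/-- a finitely generated domain over an algebraically closed field has a point -/
theorem exists_point {k B : Type u} [Field k] [IsAlgClosed k] [CommRing B] [Nontrivial B]
    [Algebra k B] [Algebra.FiniteType k B] : Nonempty (B →ₐ[k] k) := by
  obtain ⟨m, hm⟩ := Ideal.exists_maximal B
  let _ := Ideal.Quotient.field m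
  have hfin := finite_of_finite_type_of_isJacobsonRing k (B ⧸ m)
  have hbij : Function.Bijective (algebraMap k (B ⧸ m)) :=
    IsAlgClosed.algebraMap_bijective_of_isIntegral
  let e : k ≃ₐ[k] (B ⧸ m) := AlgEquiv.ofBijective (Algebra.ofId k (B ⧸ m)) hbij
  exact ⟨(e.symm : (B ⧸ m) →ₐ[k] k).comp (Ideal.Quotient.mkₐ k m)⟩

theorem red : T_RED.{u} := by
  intro k Ω _ _ _ κ d c hc F hF
  obtain ⟨p, U, V, hp, heq, hUV, hM, hv⟩ := hc
  by_contra he
  classical
  let _ : Algebra k Ω := κ.toAlgebra
  have halg : algebraMap k Ω = κ := rfl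
  have hne : ∀ i j : Fin d, i ≠ j → ∃ a, p i a ≠ p j a := by
    intro i j hij
    by_contra h
    push Not at h
    exact hij (hp (funext h))
  let a : Fin d → Fin d → Fin 3 := fun i j => if h : i ≠ j then (hne i j h).choose else 0
  have ha : ∀ i j, i ≠ j → p i (a i j) - p j (a i j) ≠ 0 := by
    intro i j hij
    simp only [a, dif_pos hij]
    exact sub_ne_zero.mpr (hne i j hij).choose_spec
  set e : Ω := MvPolynomial.eval₂ κ c.fn F with hedef
  let S : Set Ω := Set.range (fun q : Fin d × Fin d => U q.1 q.2) ∪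
    Set.range (fun q : Fin d × Fin d => V q.1 q.2) ∪
    Set.range (fun q : Fin d × Fin 3 => p q.1 q.2) ∪
    Set.range (fun q : Fin d × Fin d => (p q.1 (a q.1 q.2) - p q.2 (a q.1 q.2))⁻¹) ∪ {e⁻¹}
  have hSfin : S.Finite := by
    refine ((((Set.finite_range _).union (Set.finite_range _)).union
      (Set.finite_range _)).union (Set.finite_range _)).union (Set.finite_singleton _)
  let B : Subalgebra k Ω := Algebra.adjoin k S
  have hBft : Algebra.FiniteType k B := by
    rw [← Subalgebra.fg_iff_finiteType]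
    exact Subalgebra.fg_def.mpr ⟨S, hSfin, rfl⟩
  obtain ⟨χ⟩ := exists_point (k := k) (B := B)
  have hU : ∀ i j, U i j ∈ B := fun i j => Algebra.subset_adjoin
    (Or.inl (Or.inl (Or.inl (Or.inl ⟨(i, j), rfl⟩))))
  have hV : ∀ i j, V i j ∈ B := fun i j => Algebra.subset_adjoin
    (Or.inl (Or.inl (Or.inl (Or.inr ⟨(i, j), rfl⟩))))
  have hpB : ∀ i b, p i b ∈ B := fun i b => Algebra.subset_adjoin
    (Or.inl (Or.inl (Or.inr ⟨(i, b), rfl⟩)))
  have hdB : ∀ i j, (p i (a i j) - p j (a i j))⁻¹ ∈ B := fun i j => Algebra.subset_adjoin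
    (Or.inl (Or.inr ⟨(i, j), rfl⟩))
  have heB : e⁻¹ ∈ B := Algebra.subset_adjoin (Or.inr rfl)
  let UB : Matrix (Fin d) (Fin d) B := Matrix.of fun i j => ⟨U i j, hU i j⟩
  let VB : Matrix (Fin d) (Fin d) B := Matrix.of fun i j => ⟨V i j, hV i j⟩
  let pB : Fin d → Fin 3 → B := fun i b => ⟨p i b, hpB i b⟩
  let cB : Cfg d B := ⟨fun b => UB * Matrix.diagonal (fun i => pB i b) * VB, UB *ᵥ 1⟩
  have hUval : UB.map (B.val) = U := by ext i j; rfl
  have hVval : VB.map (B.val) = V := by ext i j; rfl
  have hcBM : ∀ b, (cB.M b).map (B.val : B → Ω) = c.M b := by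
    intro b
    change (UB * Matrix.diagonal (fun i => pB i b) * VB).map _ = _
    rw [hM b, Matrix.map_mul, Matrix.map_mul, hUval, hVval, Matrix.diagonal_map (map_zero _)]
    rfl
  have hcBv : ∀ i, (cB.v i : Ω) = c.v i := by
    intro i
    rw [hv]
    change (((UB *ᵥ (1 : Fin d → B)) i : B) : Ω) = (U *ᵥ 1) i
    simp [Matrix.mulVec, dotProduct, UB]
  have hfn : ∀ q, B.val (cB.fn q) = c.fn q := by
    rintro (⟨b, i, j⟩ | i)
    · exact congrFun (congrFun (hcBM b) i) j
    · exact hcBv i
  let eB : B := MvPolynomial.eval₂ (algebraMap k B) cB.fn F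
  have heBval : B.val eB = e := by
    have h1 := MvPolynomial.hom_eval₂ F (algebraMap k B) (B.val : B →+* Ω) cB.fn
    have h2 : (fun i => (B.val : B →+* Ω) (cB.fn i)) = c.fn := funext hfn
    have h3 : ((B.val : B →+* Ω).comp (algebraMap k B)) = κ := by
      ext x; rfl
    rw [h2, h3] at h1
    exact h1
  have hχe : χ eB ≠ 0 := by
    have h1 : eB * ⟨e⁻¹, heB⟩ = 1 := by
      apply Subtype.ext
      change (B.val eB) * e⁻¹ = 1
      rw [heBval]
      exact mul_inv_cancel₀ he
    intro h0
    have h2 := congrArg χ h1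
    rw [map_mul, h0, zero_mul, map_one] at h2
    exact zero_ne_one h2
  let c0 : Cfg d k := ⟨fun b => (cB.M b).map χ, χ ∘ cB.v⟩
  have hχeval : χ eB = MvPolynomial.eval c0.fn F := by
    have h1 := MvPolynomial.hom_eval₂ F (algebraMap k B) (χ : B →+* k) cB.fn
    have h2 : (fun i => (χ : B →+* k) (cB.fn i)) = c0.fn := by
      funext q
      rcases q with ⟨b, i, j⟩ | i <;> rfl
    have h3 : ((χ : B →+* k).comp (algebraMap k B)) = RingHom.id k := by
      ext x; exact χ.commutes x
    rw [h2, h3] at h1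
    rw [MvPolynomial.eval, MvPolynomial.coe_eval₂Hom]
    exact h1
  have hc0 : IsRed c0 := by
    refine ⟨fun i b => χ (pB i b), UB.map χ, VB.map χ, ?_, ?_, ?_, ?_, ?_⟩
    · intro i j hij
      by_contra hne'
      have h1 : (pB i (a i j) - pB j (a i j)) * ⟨_, hdB i j⟩ = 1 := by
        apply Subtype.ext
        exact mul_inv_cancel₀ (ha i j hne')
      have h2 := congrArg χ h1
      have h3 : χ (pB i (a i j)) = χ (pB j (a i j)) := congrFun hij (a i j)
      rw [map_mul, map_sub, h3, sub_self, zero_mul, map_one] at h2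
      exact zero_ne_one h2
    · intro i
      have h1 : pB i 2 ^ 2 = pB i 0 ^ 4 + pB i 1 ^ 4 := Subtype.ext (heq i)
      have h2 := congrArg χ h1
      simpa using h2
    · have h1 : UB * VB = 1 := by
        apply Matrix.map_injective (f := (B.val : B → Ω)) Subtype.val_injective
        beta_reduce
        rw [Matrix.map_mul, hUval, hVval, hUV]
        ext i j
        by_cases h : i = j
        · subst h; simp
        · simp [h]
      rw [← Matrix.map_mul, h1]
      ext i j
      by_cases h : i = j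
      · subst h; simp
      · simp [h]
    · intro b
      change (UB * Matrix.diagonal (fun i => pB i b) * VB).map _ = _
      rw [Matrix.map_mul, Matrix.map_mul, Matrix.diagonal_map (map_zero _)]
    · funext i
      change χ ((UB *ᵥ (1 : Fin d → B)) i) = (UB.map χ *ᵥ 1) i
      simp [Matrix.mulVec, dotProduct]
  exact hχe (hχeval.trans (hF c0 hc0))

end Pool.Agent.H48.HZ.RED
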