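import Pool.Agent.H12.HS.Targets

/-!
# Module ROOT: a root of a unit of a subalgebra of a finite local algebra lies in the subalgebra
-/

namespace Pool.Agent.H48.HZ.ROOT

open Pool.Agent.H12.HS Polynomial

universe u

theorem root : T_ROOT.{u} := by
  intro Ω W _ _ _ _ _ B N hN r c hc hr hrN
  classical
  have hN0 : N ≠ 0 := by
    rintro rfl
    simp at hN
  let h : B := ⟨r ^ N, hrN⟩
  let P : B[X] := X ^ N - C h
  have hder : ∀ (S : Type u) [CommRing S] [Algebra B S] (s : S),
      aeval s (derivative P) = (N : S) * s ^ (N - 1) := by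
    intro S _ _ s
    simp only [P, derivative_sub, derivative_C, sub_zero, derivative_X_pow, map_mul, map_pow,
      aeval_X, map_natCast]
  have hcN : ∀ (S : Type u) [CommRing S] [Algebra Ω S],
      IsUnit ((N : S) * (algebraMap Ω S c) ^ (N - 1)) := by
    intro S _ _
    have h1 : ((N : S) * (algebraMap Ω S c) ^ (N - 1))
        = algebraMap Ω S ((N : Ω) * c ^ (N - 1)) := by simp
    rw [h1]
    exact (IsUnit.mk0 _ (mul_ne_zero hN (pow_ne_zero _ hc))).map _
  -- nilpotency of h - c^N in W
  have hnW : IsNilpotent (r ^ N - (algebraMap Ω W c) ^ N) := by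
    obtain ⟨q, hq⟩ := sub_dvd_pow_sub_pow r (algebraMap Ω W c) N
    rw [hq]
    exact (Commute.all _ _).isNilpotent_mul_right hr
  have hnB : IsNilpotent (aeval (algebraMap Ω B c) P) := by
    obtain ⟨n, hn⟩ := hnW
    refine ⟨n, ?_⟩
    apply Subtype.ext
    have h1 : ((aeval (algebraMap Ω B c) P : B) : W) = -(r ^ N - (algebraMap Ω W c) ^ N) := by
      simp [P, h]
    rw [SubmonoidClass.coe_pow, h1, neg_pow, hn, mul_zero]
    rfl
  have huB : IsUnit (aeval (algebraMap Ω B c) (derivative P)) := by
    rw [hder]; exact hcN B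
  obtain ⟨s, ⟨hs1, hs2⟩, -⟩ := existsUnique_nilpotent_sub_and_aeval_eq_zero hnB huB
  have hnW' : IsNilpotent (aeval (algebraMap Ω W c) P) := by
    obtain ⟨n, hn⟩ := hnW
    refine ⟨n, ?_⟩
    have h1 : (aeval (algebraMap Ω W c) P : W) = -(r ^ N - (algebraMap Ω W c) ^ N) := by
      simp [P, h]
    rw [h1, neg_pow, hn, mul_zero]
  have huW : IsUnit (aeval (algebraMap Ω W c) (derivative P)) := by
    rw [hder]; exact hcN W
  obtain ⟨t, -, ht⟩ := existsUnique_nilpotent_sub_and_aeval_eq_zero hnW' huW
  have hrt : r = t := by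
    apply ht
    constructor
    · rw [← neg_sub]
      exact hr.neg
    · simp [P, h]
  have hst : (s : W) = t := by
    apply ht
    constructor
    · obtain ⟨n, hn⟩ := hs1
      refine ⟨n, ?_⟩
      have := congrArg (Subtype.val) hn
      simpa using this
    · have := congrArg (Subtype.val) hs2
      simpa [P, h, Subalgebra.algebraMap_def] using this
  rw [hrt, ← hst]
  exact s.2

end Pool.Agent.H48.HZ.ROOT
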